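import Mathlib
import Pool.Agent.W125.KotzigD

set_option autoImplicit false

namespace Pool.Agent.Results.MP_42ae20_co.Classification

open Pool.Agent.W125.Kotzig

/-- **Kotzig's problem.** For `n ≥ 2` there is an Eulerian P-quasigroup of order `n` if and only if
`n` is odd and `n ≠ 5`.

For `n = 2 k + 1 ≥ 9` the P-quasigroup is invariant under translations of `ℤ / n`: its closed walk
has differences `d_0, …, d_{k-1}` (repeated with period `k`), where both `± d_i` and
`± (d_i + d_{i+1})` (indices modulo `k`) run through all nonzero residues, and the sum of all `d_i` is
a unit modulo `n`; there is one zigzag family of such sequences for each residue of `k` modulo `4`. -/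
theorem result (n : ℕ) (hn : 2 ≤ n) :
    (∃ op : Fin n → Fin n → Fin n, IsPGroupoid op ∧ IsQuasigroup op ∧ IsEulerian op) ↔
      (Odd n ∧ n ≠ 5) :=
  classification n hn

end Pool.Agent.Results.MP_42ae20_co.Classification
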